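import Pool.Agent.H356.RF.G0

/-!
# Residual finiteness of the abelian part (RF-F2)
-/

set_option autoImplicit false

namespace Pool.Agent.H356.RF

open Pool.Agent.H197R3 (XX Quad gg GG Inv' phi pb vv sg tw2 iC iC4 z2 pb_fst pb_snd pb_mul pb_one
  phi_apply)
open Pool.Agent.H258.CR
open SemidirectProduct Polynomial

/-- elements of `Mp p` depend on finitely many values -/
theorem F2_supp {A : Type} [AddCommGroup A] (p : A →+ A) (w : XX A → Circle) (hw : w ∈ Mp p) :
    ∃ S : Set A, S.Finite ∧ ∀ x y : XX A, (∀ a ∈ S, x.1 a = y.1 a ∧ x.2.1 a = y.2.1 a) →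
      w x = w y := by
  induction hw using Subgroup.closure_induction with
  | mem z hz =>
    rcases hz with ⟨a, rfl⟩ | ⟨a, rfl⟩
    · refine ⟨{a}, Set.finite_singleton a, fun x y h => ?_⟩
      have := (h a (Set.mem_singleton a)).1
      simp only [gg, this]
    · refine ⟨{a, p a}, (Set.finite_singleton _).insert _, fun x y h => ?_⟩
      have h1 := (h a (Set.mem_insert _ _)).2
      have h2 := (h (p a) (Set.mem_insert_of_mem _ (Set.mem_singleton _))).1
      simp only [up, h1, h2]
  | one => exact ⟨∅, Set.finite_empty, fun _ _ _ => rfl⟩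
  | mul p q _ _ hp hq =>
    obtain ⟨S, hS, h1⟩ := hp
    obtain ⟨S', hS', h2⟩ := hq
    refine ⟨S ∪ S', hS.union hS', fun x y h => ?_⟩
    rw [Pi.mul_apply, Pi.mul_apply, h1 x y (fun a ha => h a (Or.inl ha)),
      h2 x y (fun a ha => h a (Or.inr ha))]
  | inv p _ hp =>
    obtain ⟨S, hS, h1⟩ := hp
    refine ⟨S, hS, fun x y h => ?_⟩
    rw [Pi.inv_apply, Pi.inv_apply, h1 x y h]

/-- the values are powers of `i` -/
theorem F2_val {A : Type} [AddCommGroup A] (p : A →+ A) (w : XX A → Circle) (hw : w ∈ Mp p)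
    (x : XX A) : w x ∈ Subgroup.zpowers iC := by
  have hi : iC ∈ Subgroup.zpowers iC := Subgroup.mem_zpowers _
  have hsg : ∀ t, sg t ∈ Subgroup.zpowers iC := by
    intro t
    unfold sg
    split_ifs
    · exact one_mem _
    · exact mul_mem hi hi
  have htw : ∀ t, tw2 t ∈ Subgroup.zpowers iC := by
    intro t
    unfold tw2
    split_ifs
    · exact one_mem _
    · exact hi
  induction hw using Subgroup.closure_induction with
  | mem z hz =>
    rcases hz with ⟨a, rfl⟩ | ⟨a, rfl⟩
    · exact hsg _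
    · exact mul_mem (htw _) (hsg _)
  | one => exact one_mem _
  | mul p q _ _ hp hq => exact mul_mem hp hq
  | inv p _ hp => exact inv_mem hp

theorem F2_iC_fin : Finite (Subgroup.zpowers iC) := by
  rw [← SetLike.coe_sort_coe, Set.finite_coe_iff]
  rw [finite_zpowers, isOfFinOrder_iff_pow_eq_one]
  refine ⟨4, by norm_num, ?_⟩
  have : iC ^ 4 = iC * iC * (iC * iC) := by
    rw [pow_succ, pow_succ, pow_two, mul_assoc (iC * iC)]
  rw [this, iC4]

section
variable {R : Type} [CommRing R]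

/-- vectors with entries in `J` -/
def JA (J : Ideal R) : AddSubgroup (V3 R) where
  carrier := {b | ∀ c, b c ∈ J}
  zero_mem' := fun _ => J.zero_mem
  add_mem' := fun h h' c => J.add_mem (h c) (h' c)
  neg_mem' := fun h c => J.neg_mem (h c)

theorem mem_JA (J : Ideal R) (b : V3 R) : b ∈ JA J ↔ ∀ c, b c ∈ J := Iff.rfl

theorem smul_JA (J : Ideal R) (g : Lam R) (b : V3 R) (hb : b ∈ JA J) : g • b ∈ JA J := by
  intro c
  have : (g • b) = (((g : (Matrix (Fin 3) (Fin 3) R)ˣ) : Matrix (Fin 3) (Fin 3) R)).mulVec b := rfl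
  rw [this, Matrix.mulVec, dotProduct]
  exact Ideal.sum_mem _ fun j _ => Ideal.mul_mem_left _ _ (hb j)

/-- the functions which are invariant modulo `J` -/
def XJ (J : Ideal R) : Set (XX (V3 R)) :=
  {x | ∀ a, ∀ b ∈ JA J, x.1 (a + b) = x.1 a ∧ x.2.1 (a + b) = x.2.1 a}

theorem XJ_pb (J : Ideal R) (g : Lam R) (x : XX (V3 R)) (hx : x ∈ XJ J) : pb g x ∈ XJ J := by
  intro a b hb
  rw [pb_fst, pb_fst, pb_snd, pb_snd, smul_add]
  exact hx _ _ (smul_JA J g b hb)

theorem XJ_finite (J : Ideal R) (hJ : Finite (R ⧸ J)) : Finite (XJ J) := by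
  let F : XJ J → ((Fin 3 → R ⧸ J) → ZMod 2) × ((Fin 3 → R ⧸ J) → ZMod 2) := fun x =>
    (fun t => x.1.1 (fun c => (Quotient.out (t c) : R)),
      fun t => x.1.2.1 (fun c => (Quotient.out (t c) : R)))
  refine Finite.of_injective F ?_
  intro x y hxy
  have h1 := congrArg Prod.fst hxy
  have h2 := congrArg Prod.snd hxy
  have key : ∀ a : V3 R, ∃ b ∈ JA J, a = (fun c => (Quotient.out
      ((Ideal.Quotient.mk J (a c))) : R)) + b := by
    intro a
    refine ⟨a - (fun c => (Quotient.out ((Ideal.Quotient.mk J (a c))) : R)), ?_, by abel⟩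
    intro c
    rw [Pi.sub_apply, ← Ideal.Quotient.eq]
    exact (Quotient.out_eq _).symm
  apply Subtype.ext
  refine Prod.ext ?_ ?_
  · refine AddMonoidHom.ext fun a => ?_
    obtain ⟨b, hb, hab⟩ := key a
    rw [hab, (x.2 _ b hb).1, (y.2 _ b hb).1]
    exact congrFun h1 (fun c => Ideal.Quotient.mk J (a c))
  · apply Subtype.ext
    funext a
    obtain ⟨b, hb, hab⟩ := key a
    rw [hab, (x.2 _ b hb).2, (y.2 _ b hb).2]
    exact congrFun h2 (fun c => Ideal.Quotient.mk J (a c))

variable (p : V3 R →+ V3 R) (hp : ∀ (g : Lam R) (a : V3 R), p (g • a) = g • p a)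

/-- the subgroup of the elements whose left part is trivial on `XJ J` -/
def HJ (J : Ideal R) : Subgroup (Gp p hp) where
  carrier := {x | ∀ y ∈ XJ J, x.left.1 y = 1}
  one_mem' := fun y _ => rfl
  mul_mem' := by
    intro x z hx hz y hy
    have e : (x * z).left.1 y = x.left.1 y * z.left.1 (pb x.right y) := rfl
    rw [e, hx y hy, hz _ (XJ_pb J _ y hy), one_mul]
  inv_mem' := by
    intro x hx y hy
    have e : (x⁻¹).left.1 y = (x.left.1 (pb x.right⁻¹ y))⁻¹ := rfl
    rw [e, hx _ (XJ_pb J _ y hy), inv_one]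

theorem HJ_index (J : Ideal R) (hJ : Finite (R ⧸ J)) : (HJ p hp J).index ≠ 0 := by
  have h1 := XJ_finite J hJ
  have h2 := F2_iC_fin
  let f : Gp p hp → (XJ J → Subgroup.zpowers iC) := fun x y =>
    ⟨x.left.1 y.1, F2_val p x.left.1 x.left.2 y.1⟩
  have key : ∀ x z, f x = f z → x⁻¹ * z ∈ HJ p hp J := by
    intro x z hxz y hy
    have e : (x⁻¹ * z).left.1 y = (x.left.1 (pb x.right⁻¹ y))⁻¹ * z.left.1 (pb x.right⁻¹ y) := rfl
    have h3 := congrArg Subtype.val (congrFun hxz ⟨pb x.right⁻¹ y, XJ_pb J _ y hy⟩)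
    have h4 : x.left.1 (pb x.right⁻¹ y) = z.left.1 (pb x.right⁻¹ y) := h3
    rw [e, h4, inv_mul_cancel]
  have hfin : Finite (Set.range f) := inferInstance
  have : Finite (Gp p hp ⧸ HJ p hp J) := by
    refine Finite.of_surjective (fun r : Set.range f =>
      (QuotientGroup.mk (Classical.choose r.2) : Gp p hp ⧸ HJ p hp J)) ?_
    intro q
    obtain ⟨z, rfl⟩ := QuotientGroup.mk_surjective q
    refine ⟨⟨f z, z, rfl⟩, ?_⟩
    rw [QuotientGroup.eq]
    apply key
    exact Classical.choose_spec (⟨f z, z, rfl⟩ : Set.range f).2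
  exact Subgroup.index_ne_zero_of_finite

end

/-- an additive projection onto a subgroup `B` killing `D`, in an elementary abelian 2-group -/
theorem exists_proj {A : Type} [AddCommGroup A] (h2 : ∀ a : A, a + a = 0) (B D : AddSubgroup A)
    (hBD : ∀ b ∈ B, b ∈ D → b = 0) : ∃ π : A →+ A, (∀ b ∈ B, π b = b) ∧ ∀ d ∈ D, π d = 0 := by
  let _ : Module (ZMod 2) A := AddCommGroup.zmodModule (n := 2) (fun x => by rw [two_nsmul, h2])
  let B' : Submodule (ZMod 2) A := AddSubgroup.toZModSubmodule 2 B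
  let D' : Submodule (ZMod 2) A := AddSubgroup.toZModSubmodule 2 D
  let ι : B' →ₗ[ZMod 2] (A ⧸ D') := D'.mkQ.comp B'.subtype
  have hι : LinearMap.ker ι = ⊥ := by
    rw [LinearMap.ker_eq_bot']
    intro b hb
    have : (b : A) ∈ D' := by
      rw [← Submodule.Quotient.mk_eq_zero]
      exact hb
    exact Subtype.ext (hBD b.1 b.2 this)
  obtain ⟨g, hg⟩ := LinearMap.exists_leftInverse_of_injective ι hι
  refine ⟨(B'.subtype.comp (g.comp D'.mkQ)).toAddMonoidHom, ?_, ?_⟩
  · intro b hb
    have := DFunLike.congr_fun hg (⟨b, hb⟩ : B')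
    exact congrArg Subtype.val this
  · intro d hd
    have : D'.mkQ d = 0 := (Submodule.Quotient.mk_eq_zero D').mpr hd
    show ((g (D'.mkQ d) : B') : A) = 0
    rw [this, map_zero]
    rfl

/-- subgroups generated by finite sets in an elementary abelian 2-group are finite -/
theorem finite_closure {A : Type} [AddCommGroup A] (h2 : ∀ a : A, a + a = 0) (S : Set A)
    (hS : S.Finite) : Finite (AddSubgroup.closure S) := by
  let _ : Module (ZMod 2) A := AddCommGroup.zmodModule (n := 2) (fun x => by rw [two_nsmul, h2])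
  have h1 : Module.Finite (ZMod 2) (Submodule.span (ZMod 2) S) := Module.Finite.span_of_finite _ hS
  have h3 : Finite (Submodule.span (ZMod 2) S) := Module.finite_of_finite (ZMod 2)
  have h4 : AddSubgroup.closure S ≤ (Submodule.span (ZMod 2) S).toAddSubgroup := by
    rw [AddSubgroup.closure_le]
    exact Submodule.subset_span
  refine Finite.of_injective (fun x : AddSubgroup.closure S =>
    (⟨x.1, h4 x.2⟩ : Submodule.span (ZMod 2) S)) (fun x y h => Subtype.ext ?_)
  exact congrArg (fun t : Submodule.span (ZMod 2) S => (t : A)) h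

/-- finite intersections of ideals of finite index -/
theorem finite_inf {R : Type*} [CommRing R] {I J : Ideal R}
    (hI : Finite (R ⧸ I)) (hJ : Finite (R ⧸ J)) : Finite (R ⧸ (I ⊓ J)) := by
  refine Finite.of_injective (fun x : R ⧸ (I ⊓ J) =>
    (Ideal.Quotient.factor (inf_le_left : I ⊓ J ≤ I) x,
      Ideal.Quotient.factor (inf_le_right : I ⊓ J ≤ J) x)) ?_
  intro x y hxy
  obtain ⟨a, rfl⟩ := Ideal.Quotient.mk_surjective x
  obtain ⟨b, rfl⟩ := Ideal.Quotient.mk_surjective y
  have h1 := congrArg Prod.fst hxy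
  have h2 := congrArg Prod.snd hxy
  simp only [Ideal.Quotient.factor_mk] at h1 h2
  rw [Ideal.Quotient.eq] at h1 h2 ⊢
  exact ⟨h1, h2⟩

/-- an ideal of finite index separating a finite set of nonzero vectors from `0` -/
theorem exists_ideal_vec {k : Type} [Field k] [Finite k] (s : Finset (V3 (k[X][X]))) :
    ∃ J : Ideal (k[X][X]), Finite (k[X][X] ⧸ J) ∧ ∀ b ∈ s, b ∈ JA J → b = 0 := by
  classical
  induction s using Finset.induction_on with
  | empty =>
    refine ⟨⊤, ?_, fun b hb => absurd hb (Finset.notMem_empty b)⟩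
    have : Subsingleton (k[X][X] ⧸ (⊤ : Ideal (k[X][X]))) := Ideal.Quotient.subsingleton_iff.mpr rfl
    infer_instance
  | insert b s _ ih =>
    obtain ⟨J, hJ, h⟩ := ih
    by_cases hb : b = 0
    · refine ⟨J, hJ, fun x hx hxJ => ?_⟩
      rw [Finset.mem_insert] at hx
      rcases hx with rfl | hx
      · exact hb
      · exact h x hx hxJ
    · obtain ⟨c, hc⟩ : ∃ c, b c ≠ 0 := by
        by_contra hcon
        push Not at hcon
        exact hb (funext hcon)
      obtain ⟨J', hJ', h'⟩ := exists_ideal (b c) hc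
      refine ⟨J ⊓ J', finite_inf hJ hJ', fun x hx hxJ => ?_⟩
      rw [Finset.mem_insert] at hx
      rcases hx with rfl | hx
      · exact absurd (hxJ c).2 h'
      · exact h x hx (fun c => (hxJ c).1)

theorem s_F2 : Pool.Agent.H193.RF.S_F2 := by
  classical
  intro k _ _ hk p hp w hw
  have h2 : ∀ a : V3 (k[X][X]), a + a = 0 := by
    intro a
    funext c
    rw [Pi.add_apply, Pi.zero_apply]
    have e : (2 : k[X][X]) = 0 := by
      have h3 : (1 : k) + 1 = 0 := hk 1
      have h4 : (C (C (1 + 1 : k)) : k[X][X]) = 0 := by rw [h3]; simp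
      rw [map_add, map_add, map_one, map_one] at h4
      rw [← h4]; norm_num
    rw [← two_mul, e, zero_mul]
  obtain ⟨x₀, hx₀⟩ : ∃ x, w.1 x ≠ 1 := by
    by_contra hcon
    push Not at hcon
    exact hw (Subtype.ext (funext hcon))
  obtain ⟨S, hS, hdep⟩ := F2_supp p w.1 w.2
  have hB := finite_closure h2 S hS
  have hBf : (AddSubgroup.closure S : Set (V3 (k[X][X]))).Finite := Set.toFinite _
  obtain ⟨J, hJ, hsep⟩ := exists_ideal_vec hBf.toFinset
  obtain ⟨π, hπ1, hπ2⟩ := exists_proj h2 (AddSubgroup.closure S) (JA J)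
    (fun b hb hbJ => hsep b (hBf.mem_toFinset.mpr hb) hbJ)
  refine ⟨HJ p hp J, HJ_index p hp J hJ, ?_⟩
  intro hmem
  let y : XX (V3 (k[X][X])) := (x₀.1.comp π, ⟨fun a => x₀.2.1 (π a), by
    intro a b c; simp only [map_add]; exact x₀.2.2 _ _ _⟩)
  have hy : y ∈ XJ J := by
    intro a b hb
    constructor
    · show x₀.1 (π (a + b)) = x₀.1 (π a)
      rw [map_add π, hπ2 b hb, add_zero]
    · show x₀.2.1 (π (a + b)) = x₀.2.1 (π a)
      rw [map_add π, hπ2 b hb, add_zero]
  have h3 : w.1 y = 1 := hmem y hy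
  have h4 : w.1 y = w.1 x₀ := by
    apply hdep
    intro a ha
    have h5 := hπ1 a (AddSubgroup.subset_closure ha)
    constructor
    · show x₀.1 (π a) = x₀.1 a
      rw [h5]
    · show x₀.2.1 (π a) = x₀.2.1 a
      rw [h5]
  exact hx₀ (h4.symm.trans h3)

end Pool.Agent.H356.RF
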