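import Pool.Agent.H193.RF.Stm

/-!
# Ideals of finite index in `k[X][Y]` (RF-G0)
-/

set_option autoImplicit false

namespace Pool.Agent.H356.RF

open Polynomial

/-- a larger ideal has a finite quotient -/
theorem finite_of_le {R : Type*} [CommRing R] {I J : Ideal R} (h : I ≤ J) (hI : Finite (R ⧸ I)) :
    Finite (R ⧸ J) :=
  Finite.of_surjective (Ideal.Quotient.factor h) (Ideal.Quotient.factor_surjective h)

/-- the kernel of a map to a finite ring has finite index -/
theorem finite_quot_ker {R S : Type*} [CommRing R] [CommRing S] [Finite S] (φ : R →+* S) :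
    Finite (R ⧸ RingHom.ker φ) :=
  Finite.of_injective (RingHom.kerLift φ) (RingHom.kerLift_injective φ)

/-- products of ideals of finite index in a Noetherian ring -/
theorem finite_mul {R : Type*} [CommRing R] [IsNoetherianRing R] {I J : Ideal R}
    (hI : Finite (R ⧸ I)) (hJ : Finite (R ⧸ J)) : Finite (R ⧸ (I * J)) := by
  have h := Submodule.finite_quotient_smul (M := R) I (N := J) (IsNoetherian.noetherian J)
  exact h

/-- `k[X] / (a)` is finite for `a ≠ 0` -/
theorem finite_quot_span {k : Type} [Field k] [Finite k] (a : k[X]) (ha : a ≠ 0) :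
    Finite (k[X] ⧸ Ideal.span {a}) := by
  have h1 : Module.Finite k (AdjoinRoot a) := (AdjoinRoot.powerBasis ha).finite
  exact Module.finite_of_finite k (M := AdjoinRoot a)

theorem finite_quot_gX {k : Type} [Field k] [Finite k] (g : k[X][X]) (hg : ¬ (X : k[X][X]) ∣ g) :
    Finite (k[X][X] ⧸ (Ideal.span {g} ⊔ Ideal.span {(X : k[X][X])})) := by
  have ha : g.coeff 0 ≠ 0 := fun h => hg (Polynomial.X_dvd_iff.mpr h)
  have := finite_quot_span (g.coeff 0) ha
  have h1 := finite_quot_ker ((Ideal.Quotient.mk (Ideal.span {g.coeff 0})).comp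
    (Polynomial.constantCoeff (R := k[X])))
  refine finite_of_le ?_ h1
  intro f hf
  rw [RingHom.mem_ker, RingHom.comp_apply, Ideal.Quotient.eq_zero_iff_mem,
    Ideal.mem_span_singleton, Polynomial.constantCoeff_apply] at hf
  obtain ⟨c, hc⟩ := hf
  have hX : ∀ q : k[X][X], X * q ∈ Ideal.span {g} ⊔ Ideal.span {(X : k[X][X])} := fun q =>
    Ideal.mul_mem_right _ _ (Ideal.mem_sup_right (Ideal.mem_span_singleton_self _))
  have e1 : ∀ q : k[X][X], q = X * q.divX + C (q.coeff 0) := fun q =>
    (Polynomial.X_mul_divX_add q).symm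
  have hCa : C (g.coeff 0) ∈ Ideal.span {g} ⊔ Ideal.span {(X : k[X][X])} := by
    have h2 : C (g.coeff 0) = g - X * g.divX := by
      rw [eq_sub_iff_add_eq, add_comm]; exact (e1 g).symm
    rw [h2]
    exact Ideal.sub_mem _ (Ideal.mem_sup_left (Ideal.mem_span_singleton_self _)) (hX _)
  rw [e1 f, hc, map_mul]
  exact Ideal.add_mem _ (hX _) (Ideal.mul_mem_right _ _ hCa)

theorem finite_quot_gXt {k : Type} [Field k] [Finite k] (g : k[X][X])
    (hg : ¬ (X : k[X][X]) ∣ g) (t : ℕ) :
    Finite (k[X][X] ⧸ (Ideal.span {g} ⊔ Ideal.span {(X : k[X][X]) ^ t})) := by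
  have h1 := finite_quot_gX g hg
  have h2 : Finite (k[X][X] ⧸ (Ideal.span {g} ⊔ Ideal.span {(X : k[X][X])}) ^ (1 + t)) :=
    Ideal.finite_quotient_pow (IsNoetherian.noetherian _) _
  refine finite_of_le ?_ h2
  refine (Ideal.sup_pow_add_le_pow_sup_pow).trans ?_
  rw [pow_one, Ideal.span_singleton_pow]

theorem s_G0 : Pool.Agent.H193.RF.S_G0 := by
  intro k _ _ K hK g t hg
  exact finite_mul hK (finite_quot_gXt g hg t)

/-- for `f ≠ 0` in `k[X][Y]` there is an ideal of finite index which does not contain `f` -/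
theorem exists_ideal {k : Type} [Field k] [Finite k] (f : k[X][X]) (hf : f ≠ 0) :
    ∃ J : Ideal (k[X][X]), Finite (k[X][X] ⧸ J) ∧ f ∉ J := by
  set M : Ideal (k[X][X]) := Ideal.span {C X} ⊔ Ideal.span {(X : k[X][X])} with hM
  have hfin : Finite (k[X][X] ⧸ M) := by
    refine finite_quot_gX _ ?_
    rw [Polynomial.X_dvd_iff, Polynomial.coeff_C_zero]
    exact Polynomial.X_ne_zero
  have hne : M ≠ ⊤ := by
    intro htop
    have h1 : (1 : k[X][X]) ∈ M := by rw [htop]; exact Submodule.mem_top
    have h2 : M ≤ RingHom.ker ((Polynomial.constantCoeff (R := k)).comp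
        (Polynomial.constantCoeff (R := k[X]))) := by
      rw [hM]
      refine sup_le ?_ ?_
      · rw [Ideal.span_singleton_le_iff_mem, RingHom.mem_ker]
        simp
      · rw [Ideal.span_singleton_le_iff_mem, RingHom.mem_ker]
        simp
    have h3 := h2 h1
    rw [RingHom.mem_ker, map_one] at h3
    exact one_ne_zero h3
  have h0 := Ideal.iInf_pow_eq_bot_of_isDomain M hne
  by_contra hcon
  push Not at hcon
  apply hf
  have h1 : f ∈ ⨅ i : ℕ, M ^ i := by
    rw [Submodule.mem_iInf]
    intro n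
    exact hcon _ (Ideal.finite_quotient_pow (IsNoetherian.noetherian _) _)
  rw [h0] at h1
  exact h1

end Pool.Agent.H356.RF
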